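import Pool.Agent.Helper6.NS.GoodTilt

namespace Pool.Agent.Helper6.NS

open CategoryTheory CategoryTheory.Limits CategoryTheory.Pretriangulated Module
open CategoryTheory.Triangulated
open Pool.Agent.Helper6.KE

universe v u w

variable {C : Type u} [Category.{v} C] [Preadditive C] [HasZeroObject C] [HasShift C ℤ]
  [∀ n : ℤ, (shiftFunctor C n).Additive] [Pretriangulated C]
  {K : Type w} [Field K] [Linear K C]

/-- the injectivity of `Hom(N, S) → Hom(N, L)` for `N` in the Kuznetsov component -/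
lemma comp_q_ne (D : EnriquesType K C) (L : Fin 10 → C) {S N : C}
    {i : (D.W.obj (L 0))⟦(1 : ℤ)⟧ ⟶ S} {q : S ⟶ L 0}
    {ε : L 0 ⟶ (D.W.obj (L 0))⟦(1 : ℤ)⟧⟦(1 : ℤ)⟧}
    (hT : Triangle.mk i q ε ∈ distTriang C) (hN : Ku L N) (f : N ⟶ S) (hf : f ≠ 0) :
    f ≫ q ≠ 0 := by
  intro h0
  obtain ⟨g, hg⟩ := Triangle.coyoneda_exact₂ _ hT f h0
  have : g = 0 := hv_zero' (hv_A D (hN 0) 0) g
  apply hf
  rw [hg, this]
  exact zero_comp

/-- `Hom(N, L[n]) = 0` if `Hom(N, S[n]) = 0`, for `N` in the Kuznetsov component. -/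
lemma hv_NL (D : EnriquesType K C) (L : Fin 10 → C) {S N : C}
    {i : (D.W.obj (L 0))⟦(1 : ℤ)⟧ ⟶ S} {q : S ⟶ L 0}
    {ε : L 0 ⟶ (D.W.obj (L 0))⟦(1 : ℤ)⟧⟦(1 : ℤ)⟧}
    (hT : Triangle.mk i q ε ∈ distTriang C) (hN : Ku L N) (n : ℤ) (h : HV N S n) :
    HV N (L 0) n := by
  intro f
  obtain ⟨g, hg⟩ := coyo₂ _ (rot_of_distTriang _ hT) n f
    (((hv_A D (hN 0) (1 + n)).shift_right 1 n rfl) _)
  have h1 : g = 0 := h g
  rw [hg, h1]
  exact zero_comp

/-- `Hom(W L, M[n]) = 0` if `Hom(S, M[n+1]) = 0`, for `M` in the Kuznetsov component. -/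
lemma hv_WLM (D : EnriquesType K C) (L : Fin 10 → C) {S M : C}
    {i : (D.W.obj (L 0))⟦(1 : ℤ)⟧ ⟶ S} {q : S ⟶ L 0}
    {ε : L 0 ⟶ (D.W.obj (L 0))⟦(1 : ℤ)⟧⟦(1 : ℤ)⟧}
    (hT : Triangle.mk i q ε ∈ distTriang C) (hM : Ku L M) (n : ℤ) (h : HV S M (n + 1)) :
    HV (D.W.obj (L 0)) M n := by
  refine HV.shift_left 1 n (b := n + 1) ?_ rfl
  intro f
  obtain ⟨g, hg⟩ := yo₁' _ hT (n + 1) (n + 2) (by ring) (hM 0 (n + 2)) f
  have h1 : g = 0 := h g
  rw [hg, h1]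
  exact comp_zero

variable [∀ n : ℤ, (shiftFunctor C n).Linear K]

/-- M8: the chain of tilts. -/
theorem chain [IsTriangulated C] (D : EnriquesType K C) (L : Fin 10 → C) (hL : IsExcOrth K L)
    (t : TStructure C) (p : Fin 10 → ℤ) (h : Good D L t p) {S M N : C}
    (i : (D.W.obj (L 0))⟦(1 : ℤ)⟧ ⟶ S) (q : S ⟶ L 0)
    (ε : L 0 ⟶ (D.W.obj (L 0))⟦(1 : ℤ)⟧⟦(1 : ℤ)⟧)
    (hT : Triangle.mk i q ε ∈ distTriang C) (hM : Ku L M) (hN : Ku L N) (κ : M ⟶ S) (ν : N ⟶ M)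
    (hν : ν ≫ κ ≠ 0) (F3 : ∀ n < 0, HV N S n) (F4 : ∀ n ≤ 0, HV S M n) :
    ∃ (t' : TStructure C) (p' : Fin 10 → ℤ), Good D L t' p' ∧
      (∀ (Z : C) (z : Z ⟶ M), t'.IsLE Z (p' 0 - 1) → z ≫ κ = 0) ∧
      ∃ (Z : C) (z : Z ⟶ M), t'.IsLE Z (p' 0) ∧ z ≫ κ ≫ q ≠ 0 := by
  -- first go down
  have down : ∀ m : ℕ, ∀ (t : TStructure C) (p : Fin 10 → ℤ), Good D L t p →
      t.IsGE M (p 0 - m) → ∃ (t' : TStructure C) (p' : Fin 10 → ℤ), Good D L t' p' ∧
        t'.IsGE M (p' 0) := by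
    intro m
    induction m with
    | zero =>
      intro t p h hg
      exact ⟨t, p, h, by simpa using hg⟩
    | succ m ih =>
      intro t p h hg
      obtain ⟨t', p', h', hp', hge⟩ := good_down D L hL t p h
      refine ih t' p' h' ?_
      have e : p 0 - ((m + 1 : ℕ) : ℤ) = p' 0 - m := by rw [hp']; push_cast; ring
      rw [e] at hg
      refine (hge M _).2 ⟨hg, hM 0 _, ?_⟩
      refine hv_WLM D L hT hM _ (F4 _ ?_)
      rw [hp']
      have : (0 : ℤ) ≤ m := Int.natCast_nonneg m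
      omega
  obtain ⟨⟨a, ha⟩, _⟩ := h.bdd M
  have hstart : t.IsGE M (p 0 - (p 0 - a).toNat) := by
    refine t.isGE_of_ge M _ a ?_
    omega
  obtain ⟨t₁, p₁, h₁, hg₁⟩ := down _ t p h hstart
  -- the predicate `¬A`
  have hA₁ : ∀ (Z : C) (z : Z ⟶ M), t₁.IsLE Z (p₁ 0 - 1) → z ≫ κ = 0 := by
    intro Z z hZ
    have hz : z = 0 := t₁.zero z (p₁ 0 - 1) (p₁ 0) (by omega)
    rw [hz, zero_comp]
  -- then go up
  have up : ∀ m : ℕ, ∀ (t : TStructure C) (p : Fin 10 → ℤ), Good D L t p →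
      (∀ (Z : C) (z : Z ⟶ M), t.IsLE Z (p 0 - 1) → z ≫ κ = 0) → t.IsLE N (p 0 + m) →
      ∃ (t' : TStructure C) (p' : Fin 10 → ℤ), Good D L t' p' ∧
        (∀ (Z : C) (z : Z ⟶ M), t'.IsLE Z (p' 0 - 1) → z ≫ κ = 0) ∧
        ∃ (Z : C) (z : Z ⟶ M), t'.IsLE Z (p' 0) ∧ z ≫ κ ≫ q ≠ 0 := by
    intro m
    induction m with
    | zero =>
      intro t p h hA hle
      refine ⟨t, p, h, hA, N, ν, by simpa using hle, ?_⟩
      have := comp_q_ne D L hT hN (ν ≫ κ) hν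
      rwa [Category.assoc] at this
    | succ m ih =>
      intro t p h hA hle
      by_cases hC : ∃ (Z : C) (z : Z ⟶ M), t.IsLE Z (p 0) ∧ z ≫ κ ≫ q ≠ 0
      · exact ⟨t, p, h, hA, hC⟩
      push Not at hC
      obtain ⟨t', p', h', hp', hle'⟩ := good_up D L hL t p h
      refine ih t' p' h' ?_ ?_
      · intro Z z hZ
        have hZ1 : t.IsLE Z (p 0) := by
          have := ((hle' Z _).1 hZ).1
          rw [hp'] at this
          simpa using this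
        -- factor through the truncation of `M`
        obtain ⟨z', hz'⟩ := t.liftTruncLE_aux z (p 0) (Y := M)
        let Mle := (t.truncLE (p 0)).obj M
        let Mgt := (t.truncGT (p 0)).obj M
        let ιM : Mle ⟶ M := (t.truncLEι (p 0)).app M
        have hz'' : z = z' ≫ ιM := hz'
        have hMle : t.IsLE Mle (p 0) := inferInstance
        have hMgt : t.IsGE Mgt (p 0 + 1) := by
          change t.IsGE ((t.truncGT (p 0)).obj M) (p 0 + 1)
          infer_instance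
        have h0 : ιM ≫ κ ≫ q = 0 := hC Mle ιM hMle
        obtain ⟨g, hg⟩ := Triangle.coyoneda_exact₂ _ hT (ιM ≫ κ) (by
          rw [Category.assoc]; exact h0)
        -- `Hom(Mle, W L [1]) = 0`
        have hv : HV Mle ((D.W.obj (L 0))⟦(1 : ℤ)⟧) 0 := by
          have h2 : t.IsLE ((D.W.obj (L 0))⟦(1 : ℤ)⟧) (p 0 - 1) := by
            have := (h.smpW 0).le
            exact t.isLE_shift _ (p 0) 1 (p 0 - 1) (by ring)
          have h3 : HV Mgt ((D.W.obj (L 0))⟦(1 : ℤ)⟧) 1 :=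
            van D t h.Wge (p 0 + 1) (p 0 - 1) 1 hMgt h2 (by omega)
          intro f
          obtain ⟨k, hk⟩ := yo₁' _ (t.triangleLEGT_distinguished (p 0) M) 0 1 (by norm_num) h3 f
          have hk0 : k = 0 := hv_A D (hM 0) 0 k
          rw [hk, hk0]
          exact comp_zero
        have hg0 : g = 0 := hv_zero' hv g
        have hg1 : ιM ≫ κ = 0 := by
          rw [show ιM ≫ κ = g ≫ i from hg, hg0]
          exact zero_comp
        rw [hz'', Category.assoc, hg1, comp_zero]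
      · have e : p 0 + ((m + 1 : ℕ) : ℤ) = p' 0 + m := by rw [hp']; push_cast; ring
        rw [e] at hle
        have hm : (0 : ℤ) ≤ m := Int.natCast_nonneg m
        refine (hle' N _).2 ⟨hle, ?_, hv_W D _ (hN 0 _)⟩
        refine hv_NL D L hT hN _ (F3 _ ?_)
        rw [hp']; omega
  obtain ⟨_, ⟨b, hb⟩⟩ := h₁.bdd N
  have hstart2 : t₁.IsLE N (p₁ 0 + (b - p₁ 0).toNat) := by
    refine t₁.isLE_of_le N b _ ?_
    omega
  exact up _ t₁ p₁ h₁ hA₁ hstart2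

end Pool.Agent.Helper6.NS
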