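import Pool.Agent.Helper6.KE.Proj

namespace Pool.Agent.Helper6.NS

open CategoryTheory CategoryTheory.Limits CategoryTheory.Pretriangulated Module
open CategoryTheory.Triangulated
open Pool.Agent.Helper6.KE

universe v u w

variable {C : Type u} [Category.{v} C] [Preadditive C] [HasZeroObject C] [HasShift C ℤ]
  [∀ n : ℤ, (shiftFunctor C n).Additive] [Pretriangulated C]

/-- dimension of `Hom(X, Y[n])` -/
noncomputable def hd (K : Type w) [Field K] [Linear K C] (X Y : C) (n : ℤ) : ℕ :=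
  finrank K (X ⟶ Y⟦n⟧)

/-- `T` is a simple object of the heart placed in degree `p`: it is nonzero, `≤ p`, `≥ p`, and
every nonzero morphism `X ⟶ T` with `X ≤ p` has its fibre `≤ p`. -/
structure Smp (t : TStructure C) (T : C) (p : ℤ) : Prop where
  le : t.IsLE T p
  ge : t.IsGE T p
  epi : ∀ {X F : C} (i : F ⟶ X) (f : X ⟶ T) (δ : T ⟶ F⟦(1 : ℤ)⟧),
    Triangle.mk i f δ ∈ distTriang C → t.IsLE X p → f ≠ 0 → t.IsLE F p

/-- the dual form of `Smp` -/
structure CoSmp (t : TStructure C) (T : C) (p : ℤ) : Prop where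
  le : t.IsLE T p
  ge : t.IsGE T p
  mono : ∀ {X Y : C} (g : T ⟶ X) (q : X ⟶ Y) (δ : Y ⟶ T⟦(1 : ℤ)⟧),
    Triangle.mk g q δ ∈ distTriang C → t.IsGE X p → g ≠ 0 → t.IsGE Y p

/-- the piece of `X` in degree `n`: `τ_{≥ n} τ_{< n+1} X`. -/
noncomputable def gr (t : TStructure C) (n : ℤ) (X : C) : C := (t.truncGELT n (n + 1)).obj X

/-- A bounded `W`-invariant t-structure in which all `L k` and `W (L k)` are simple objects placed
in degree `p k`. -/
structure Good {K : Type w} [Field K] [Linear K C] (D : EnriquesType K C) (L : Fin 10 → C)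
    (t : TStructure C) (p : Fin 10 → ℤ) : Prop where
  bdd : ∀ X, t.bounded X
  Wle : ∀ X n, t.IsLE X n → t.IsLE (D.W.obj X) n
  Wge : ∀ X n, t.IsGE X n → t.IsGE (D.W.obj X) n
  smp : ∀ k, Smp t (L k) (p k)
  smpW : ∀ k, Smp t (D.W.obj (L k)) (p k)

end Pool.Agent.Helper6.NS
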