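import Pool.Agent.Helper6.NS.Defs
import Pool.Agent.Helper6.KE.HeartHD

namespace Pool.Agent.Helper6.NS

open CategoryTheory CategoryTheory.Limits CategoryTheory.Pretriangulated Module
open CategoryTheory.Triangulated
open Pool.Agent.Helper6.KE

universe v u w

variable {T : Type u} [Category.{v} T] [Preadditive T] [HasZeroObject T] [HasShift T ℤ]
  [∀ n : ℤ, (shiftFunctor T n).Additive] [Pretriangulated T]

/-- the top degree of a nonzero bounded object. -/
lemma exists_top (t : TStructure T) (hb : ∀ E, t.bounded E) (S : T) (hS : ¬ IsZero S) :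
    ∃ u : ℤ, t.IsLE S u ∧ ¬ t.IsLE S (u - 1) := by
  obtain ⟨⟨l, hl⟩, ⟨r, hr⟩⟩ := hb S
  by_contra hcon
  push Not at hcon
  have hall : ∀ n : ℕ, t.IsLE S (r - n) := by
    intro n
    induction n with
    | zero => simpa using hr
    | succ n ih =>
      have := hcon (r - n) ih
      have e : r - ((n + 1 : ℕ) : ℤ) = r - n - 1 := by push_cast; ring
      rw [e]; exact this
  have h1 := hall (r - l + 1).toNat
  have h2 : t.IsLE S (l - 1) := t.isLE_of_le S (r - (r - l + 1).toNat) (l - 1) (by omega)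
  exact hS (t.isZero S (l - 1) l (by omega))

/-- the bottom degree of a nonzero bounded object. -/
lemma exists_bot (t : TStructure T) (hb : ∀ E, t.bounded E) (S : T) (hS : ¬ IsZero S) :
    ∃ l : ℤ, t.IsGE S l ∧ ¬ t.IsGE S (l + 1) := by
  obtain ⟨⟨l, hl⟩, ⟨r, hr⟩⟩ := hb S
  by_contra hcon
  push Not at hcon
  have hall : ∀ n : ℕ, t.IsGE S (l + n) := by
    intro n
    induction n with
    | zero => simpa using hl
    | succ n ih =>
      have := hcon (l + n) ih
      have e : l + ((n + 1 : ℕ) : ℤ) = l + n + 1 := by push_cast; ring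
      rw [e]; exact this
  have h1 := hall (r - l + 1).toNat
  have h2 : t.IsGE S (r + 1) := t.isGE_of_ge S (r + 1) (l + (r - l + 1).toNat) (by omega)
  exact hS (t.isZero S r (r + 1) (by omega))

lemma shift_isZero {X : T} (a : ℤ) (h : IsZero (X⟦a⟧)) : IsZero X := by
  rw [IsZero.iff_id_eq_zero] at h ⊢
  apply (shiftFunctor T a).map_injective
  rw [CategoryTheory.Functor.map_id, h, Functor.map_zero]

/-- M11: truncation of `S` in a bounded t-structure. -/
theorem extract [IsTriangulated T] (t : TStructure T) (hb : ∀ E, t.bounded E) (S : T)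
    (hS : ¬ IsZero S) (hneg : ∀ n < 0, HV S S n) (hend : ∀ f : S ⟶ S, f ≠ 0 → IsIso f) :
    (∃ l : ℤ, t.heart (S⟦l⟧)) ∨
    ∃ (M B N : T) (κ : M ⟶ S) (γ : S ⟶ B) (δ : B ⟶ M⟦(1 : ℤ)⟧) (ν : N ⟶ M),
      Triangle.mk κ γ δ ∈ distTriang T ∧ ν ≫ κ ≠ 0 ∧ (∀ n ≤ 0, HV M B n) ∧
      (∀ n < 0, HV N S n) ∧ (∀ n ≤ 0, HV S M n) ∧
      ∃ u : ℤ, t.heart (B⟦u⟧) ∧ ¬ IsZero (B⟦u⟧) := by
  obtain ⟨u, hu1, hu2⟩ := exists_top t hb S hS
  obtain ⟨l, hl1, hl2⟩ := exists_bot t hb S hS
  have hlu : l ≤ u := by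
    by_contra hcon
    exact hS (t.isZero S u l (by omega))
  rcases hlu.eq_or_lt with hlu | hlu
  · left
    refine ⟨l, ?_⟩
    rw [t.mem_heart_iff]
    subst hlu
    exact ⟨t.isLE_shift S l l 0 (by omega), t.isGE_shift S l l 0 (by omega)⟩
  · right
    -- the top piece
    obtain ⟨M, B, hM, hB, κ, γ, δ, hT⟩ := t.exists_triangle S (u - 1) u (by ring)
    have hM1 : t.IsLE M (u - 1) := ⟨hM⟩
    have hB1 : t.IsGE B u := ⟨hB⟩
    have hB2 : t.IsLE B u := by
      refine t.isLE₂ _ (rot_of_distTriang _ hT) u hu1 ?_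
      change t.IsLE (M⟦(1 : ℤ)⟧) u
      have := t.isLE_shift M (u - 1) 1 (u - 2) (by ring)
      exact t.isLE_of_le _ (u - 2) u (by omega)
    have hBz : ¬ IsZero B := by
      intro hz
      apply hu2
      have hiso : IsIso κ := (Triangle.isZero₃_iff_isIso₁ _ hT).1 hz
      exact t.isLE_of_iso (asIso κ) (u - 1)
    have hγ : γ ≠ 0 := by
      intro h0
      apply hBz
      rw [IsZero.iff_id_eq_zero]
      obtain ⟨g, hg⟩ := Triangle.yoneda_exact₃ _ hT (𝟙 B) (by
        change γ ≫ 𝟙 B = 0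
        rw [h0, zero_comp])
      have hg0 : g = 0 := by
        have h5 : t.IsLE (M⟦(1 : ℤ)⟧) (u - 2) := t.isLE_shift M (u - 1) 1 (u - 2) (by ring)
        exact t.zero_of_isLE_of_isGE g (u - 2) u (by omega) h5 hB1
      exact hg.trans (by rw [hg0]; exact comp_zero)
    -- the bottom piece
    obtain ⟨N, R, hN, hR, ι, ρ, δ', hT'⟩ := t.exists_triangle S l (l + 1) rfl
    have hN1 : t.IsLE N l := ⟨hN⟩
    have hR1 : t.IsGE R (l + 1) := ⟨hR⟩
    have hι : ι ≠ 0 := by
      intro h0
      have hNz : IsZero N := by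
        rw [IsZero.iff_id_eq_zero]
        obtain ⟨g, hg⟩ := Triangle.coyoneda_exact₂ _ (inv_rot_of_distTriang _ hT') (𝟙 N) (by
          change 𝟙 N ≫ ι = 0
          rw [h0, comp_zero])
        have hg0 : g = 0 := by
          have h5 : t.IsGE (R⟦(-1 : ℤ)⟧) (l + 2) := t.isGE_shift R (l + 1) (-1) (l + 2) (by ring)
          exact t.zero_of_isLE_of_isGE g l (l + 2) (by omega) hN1 h5
        exact hg.trans (by rw [hg0]; exact zero_comp)
      apply hl2
      have hiso : IsIso ρ := (Triangle.isZero₁_iff_isIso₂ _ hT').1 hNz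
      exact t.isGE_of_iso (asIso ρ).symm (l + 1)
    have hNS : t.IsLE N (u - 1) := t.isLE_of_le N l (u - 1) (by omega)
    obtain ⟨ν, hν⟩ := Triangle.coyoneda_exact₂ _ hT ι (by
      change ι ≫ γ = 0
      exact t.zero _ (u - 1) u (by omega))
    have F2 : ∀ n < 0, HV S B n := fun n hn => hv_heart t u u n hu1 hB1 (by omega)
    refine ⟨M, B, N, κ, γ, δ, ν, hT, ?_, ?_, ?_, ?_, u, ?_, ?_⟩
    · intro h0
      exact hι (hν.trans h0)
    · intro n hn
      exact hv_heart t (u - 1) u n hM1 hB1 (by omega)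
    · intro n hn
      exact hv_heart t l l n hN1 hl1 (by omega)
    · intro n hn f
      have hinj : f ≫ κ⟦n⟧' = 0 → f = 0 := fun h0 =>
        coyo₁ _ hT n (n - 1) (by ring) (F2 (n - 1) (by omega)) f h0
      rcases hn.lt_or_eq with hn | rfl
      · exact hinj (hneg n hn _)
      · by_contra hf
        -- transport to degree zero
        have h1 : f ≫ (shiftFunctorZero T ℤ).hom.app M ≫ κ =
            f ≫ κ⟦(0 : ℤ)⟧' ≫ (shiftFunctorZero T ℤ).hom.app S := by
          congr 1
          exact ((shiftFunctorZero T ℤ).hom.naturality κ).symm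
        have hne : (f ≫ (shiftFunctorZero T ℤ).hom.app M) ≫ κ ≠ 0 := by
          intro h0
          apply hf
          apply hinj
          rw [← cancel_mono ((shiftFunctorZero T ℤ).hom.app S), Category.assoc, ← h1,
            ← Category.assoc, h0, zero_comp]
        have hiso := hend _ hne
        apply hγ
        have h2 : κ ≫ γ = 0 := comp_distTriang_mor_zero₁₂ _ hT
        rw [← cancel_epi ((f ≫ (shiftFunctorZero T ℤ).hom.app M) ≫ κ), Category.assoc, h2,
          comp_zero, comp_zero]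
    · rw [t.mem_heart_iff]
      exact ⟨t.isLE_shift B u u 0 (by omega), t.isGE_shift B u u 0 (by omega)⟩
    · exact fun hz => hBz (shift_isZero u hz)

end Pool.Agent.Helper6.NS
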