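import Pool.Agent.Helper6.NS.Van

/-! The formal properties of `D^b(X)` and `Coh(X)` for an Enriques surface `X` without smooth
rational curves (textbook facts), as Lean structures. -/

namespace Pool.Agent.Helper6.NS

open CategoryTheory CategoryTheory.Limits CategoryTheory.Pretriangulated Module
open CategoryTheory.Triangulated
open Pool.Agent.Helper6.KE

universe v₁ u₁ v u w

/-- Serre duality: total Hom spaces are finite dimensional over `K`, `W` is the twist by the
canonical bundle, an involution commuting with shifts, and `W[2]` is a Serre functor, given by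
trace maps `Hom(X, W(X)[2]) → K`. -/
structure Duality (K : Type w) [Field K] (C : Type u) [Category.{v} C] [Preadditive C]
    [HasShift C ℤ] [Linear K C] where
  homFinite : ∀ X Y : C, FiniteDimensional K (X ⟶ Y)
  extFinite : ∀ X Y : C, {n : ℤ | ∃ f : X ⟶ Y⟦n⟧, f ≠ 0}.Finite
  /-- the twist by the canonical bundle -/
  W : C ⥤ C
  [commShift : W.CommShift ℤ]
  sq : W ⋙ W ≅ 𝟭 C
  /-- the trace maps of Serre duality -/
  tr : ∀ X : C, (X ⟶ (W.obj X)⟦(2 : ℤ)⟧) →ₗ[K] K
  tr_comm : ∀ {X Y : C} (f : X ⟶ Y) (g : Y ⟶ (W.obj X)⟦(2 : ℤ)⟧),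
    tr Y (g ≫ (W.map f)⟦(2 : ℤ)⟧') = tr X (f ≫ g)
  left : ∀ {X Y : C} (f : X ⟶ Y), f ≠ 0 → ∃ g : Y ⟶ (W.obj X)⟦(2 : ℤ)⟧, tr X (f ≫ g) ≠ 0
  right : ∀ {X Y : C} (g : Y ⟶ (W.obj X)⟦(2 : ℤ)⟧), g ≠ 0 → ∃ f : X ⟶ Y, tr X (f ≫ g) ≠ 0

variable {C : Type u} [Category.{v} C] [Preadditive C] [HasZeroObject C] [HasShift C ℤ]
  [∀ n : ℤ, (shiftFunctor C n).Additive] [Pretriangulated C]

/-- Coherent sheaves: the abelian category `A` (coherent sheaves, noetherian) is the heart of the
standard bounded t-structure of `C`, short exact sequences of `A` are distinguished triangles, and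
the twist `W` by the canonical bundle comes from an endofunctor `tw` of `A`. -/
structure Sheaves (A : Type u₁) [Category.{v₁} A] [Abelian A] (W : C ⥤ C) where
  t : TStructure C
  bdd : ∀ X, t.bounded X
  Wle : ∀ X n, t.IsLE X n → t.IsLE (W.obj X) n
  Wge : ∀ X n, t.IsGE X n → t.IsGE (W.obj X) n
  /-- the embedding of the heart -/
  ι : A ⥤ C
  [full : ι.Full]
  [faithful : ι.Faithful]
  [additive : ι.Additive]
  heart_iff : ∀ X : C, t.heart X ↔ ∃ E : A, Nonempty (ι.obj E ≅ X)
  exact : ∀ S : ShortComplex A, S.ShortExact →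
    ∃ δ : ι.obj S.X₃ ⟶ (ι.obj S.X₁)⟦(1 : ℤ)⟧, Triangle.mk (ι.map S.f) (ι.map S.g) δ ∈ distTriang C
  noeth : ∀ E : A, IsNoetherianObject E
  /-- the twist by the canonical bundle on sheaves -/
  tw : A ⥤ A
  twι : tw ⋙ ι ≅ ι ⋙ W

attribute [instance] Sheaves.full Sheaves.faithful Sheaves.additive

/-- Numerical invariants: rank, first Chern class in `Num(X) ≅ ℤ^10`, second Chern character;
additivity, invariance under `W`, the intersection form (Hodge index theorem) and
Riemann-Roch. -/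
structure Invariants (K : Type w) [Field K] [Linear K C] (W : C ⥤ C) where
  rk : C → ℤ
  c₁ : C → (Fin 10 → ℤ)
  ch₂ : C → ℝ
  rk_add : ∀ T ∈ distTriang C, rk T.obj₂ = rk T.obj₁ + rk T.obj₃
  c₁_add : ∀ T ∈ distTriang C, c₁ T.obj₂ = c₁ T.obj₁ + c₁ T.obj₃
  ch₂_add : ∀ T ∈ distTriang C, ch₂ T.obj₂ = ch₂ T.obj₁ + ch₂ T.obj₃
  rk_W : ∀ X, rk (W.obj X) = rk X
  c₁_W : ∀ X, c₁ (W.obj X) = c₁ X
  /-- the intersection form on `Num(X)` -/
  inter : LinearMap.BilinForm ℤ (Fin 10 → ℤ)
  symm : ∀ x y, inter x y = inter y x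
  hodge : ∃ h, 0 < inter h h ∧ ∀ x, inter h x = 0 → x ≠ 0 → inter x x < 0
  riemannRoch : ∀ X Y : C, (chi K X Y : ℝ) =
    rk X * ch₂ Y + rk Y * ch₂ X - inter (c₁ X) (c₁ Y) + rk X * rk Y

/-- An Enriques surface without smooth rational curves: every class of positive square is ample
or anti-ample, ranks of sheaves are nonnegative, and torsion sheaves have nonnegative degree. -/
structure Unnodal (K : Type w) [Field K] [Linear K C] (A : Type u₁) [Category.{v₁} A] [Abelian A]
    where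
  D : Duality K C
  S : Sheaves A D.W
  N : Invariants K D.W
  rk_nonneg : ∀ E : A, 0 ≤ N.rk (S.ι.obj E)
  Ample : Set (Fin 10 → ℤ)
  unnodal : ∀ h, 0 < N.inter h h → h ∈ Ample ∨ -h ∈ Ample
  deg_nonneg : ∀ h ∈ Ample, ∀ E : A, N.rk (S.ι.obj E) = 0 → 0 ≤ N.inter h (N.c₁ (S.ι.obj E))

/-- `E` is a line bundle, or has the following properties of line bundles: rank one, nonzero
subsheaves have positive rank, and `Ext^1(R, E) = 0` for every sheaf `R` with zero dimensional
support (rank zero and degree zero for some ample class). -/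
structure Unnodal.IsLine {K : Type w} [Field K] [Linear K C] {A : Type u₁} [Category.{v₁} A]
    [Abelian A] (X : Unnodal (C := C) K A) (E : A) : Prop where
  rk_one : X.N.rk (X.S.ι.obj E) = 1
  torsionFree : ∀ (E' : A) (f : E' ⟶ E), Mono f → ¬ IsZero E' → 0 < X.N.rk (X.S.ι.obj E')
  ext_zero : ∀ (R : A), X.N.rk (X.S.ι.obj R) = 0 →
    (∃ h ∈ X.Ample, X.N.inter h (X.N.c₁ (X.S.ι.obj R)) = 0) →
    ∀ f : X.S.ι.obj R ⟶ (X.S.ι.obj E)⟦(1 : ℤ)⟧, f = 0

/-- The torsion free class of the slope `0` for the rank `r` and the degree `z`: nonzero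
subobjects have positive rank and nonpositive degree. -/
def FreeCl {A : Type u₁} [Category.{v₁} A] [Abelian A] (r z : A → ℤ) (F : A) : Prop :=
  ∀ (F' : A) (f : F' ⟶ F), Mono f → ¬ IsZero F' → 0 < r F' ∧ z F' ≤ 0

/-- The torsion class: nonzero quotients have rank zero or positive degree. -/
def TorCl {A : Type u₁} [Category.{v₁} A] [Abelian A] (r z : A → ℤ) (T : A) : Prop :=
  ∀ (Q : A) (f : T ⟶ Q), Epi f → ¬ IsZero Q → r Q = 0 ∨ 0 < z Q

/-- rank of a sheaf -/
def Unnodal.r {K : Type w} [Field K] [Linear K C] {A : Type u₁} [Category.{v₁} A]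
    [Abelian A] (X : Unnodal (C := C) K A) (E : A) : ℤ := X.N.rk (X.S.ι.obj E)

/-- degree of a sheaf with respect to `h`, minus `m` times the rank -/
def Unnodal.z {K : Type w} [Field K] [Linear K C] {A : Type u₁} [Category.{v₁} A]
    [Abelian A] (X : Unnodal (C := C) K A) (h : Fin 10 → ℤ) (m : ℤ) (E : A) : ℤ :=
  X.N.inter h (X.N.c₁ (X.S.ι.obj E)) - m * X.N.rk (X.S.ι.obj E)

/-- The data underlying a stability condition on the Kuznetsov component with respect to its
numerical Grothendieck group: a bounded t-structure and a central charge `Z` that is additive,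
depends only on the numerical class, and sends nonzero objects of the heart to
`ℝ_{>0} exp(i π φ)`, `0 < φ ≤ 1`. (The Harder-Narasimhan and support properties are not asked.) -/
structure StabData (K : Type w) [Field K] [Linear K C] (L : Fin 10 → C) where
  t : TStructure (Ku L).FullSubcategory
  bdd : ∀ E, t.bounded E
  Z : (Ku L).FullSubcategory → ℂ
  add : ∀ T ∈ distTriang (Ku L).FullSubcategory, Z T.obj₂ = Z T.obj₁ + Z T.obj₃
  num : ∀ E : (Ku L).FullSubcategory,
    (∀ F : (Ku L).FullSubcategory, chi K E.obj F.obj = 0) → Z E = 0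
  central : ∀ E, t.heart E → ¬ IsZero E → ∃ m φ : ℝ, 0 < m ∧ 0 < φ ∧ φ ≤ 1 ∧
    Z E = m * Complex.exp ((Real.pi * φ : ℝ) * Complex.I)

end Pool.Agent.Helper6.NS
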