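import Pool.Agent.Helper6.NS.Main
import Pool.Agent.Helper6.NS.Geo
import Pool.Agent.Helper82.KU.G5
import Pool.Agent.Helper20.KU.G6

namespace Pool.Agent.Helper6.NS

open CategoryTheory CategoryTheory.Limits CategoryTheory.Pretriangulated Module
open CategoryTheory.Triangulated
open Pool.Agent.Helper6.KE
open Pool.Agent.Helper20.KU (good_of_unnodal)
open Pool.Agent.Helper82.KU (exists_enriques)

universe v₁ u₁ v u w

variable {C : Type u} [Category.{v} C] [Preadditive C] [HasZeroObject C] [HasShift C ℤ]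
  [∀ n : ℤ, (shiftFunctor C n).Additive] [Pretriangulated C]
  {K : Type w} [Field K] [Linear K C] [∀ n : ℤ, (shiftFunctor C n).Linear K]
  {A : Type u₁} [Category.{v₁} A] [Abelian A]

/-- The Kuznetsov component of an Enriques surface without smooth rational curves has no
stability condition with respect to its numerical Grothendieck group. -/
theorem no_stability [IsTriangulated C] (X : Unnodal (C := C) K A) (L : Fin 10 → A)
    (hL : ∀ k, X.IsLine (L k)) (hexc : IsExcOrth K (fun k => X.S.ι.obj (L k))) :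
    IsEmpty (StabData K (fun k => X.S.ι.obj (L k))) := by
  refine ⟨fun σ => ?_⟩
  obtain ⟨D, hD, hadd⟩ := exists_enriques X
  obtain ⟨t, ht⟩ := good_of_unnodal X D hD L hL hexc
  obtain ⟨E, hE, hEz, hE0⟩ := heart_has_trivial D hadd _ hexc t _ ht σ.t σ.bdd
  obtain ⟨m, φ, hm, _, _, hZ⟩ := σ.central E hE hEz
  rw [σ.num E hE0] at hZ
  have h1 : (m : ℂ) ≠ 0 := by exact_mod_cast hm.ne'
  exact (mul_ne_zero h1 (Complex.exp_ne_zero _)) hZ.symm

end Pool.Agent.Helper6.NS
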