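import Pool.Agent.Helper6.NS.Van
import Pool.Agent.Helper61.KU.M1
import Pool.Agent.Helper73.KU.M2
import Pool.Agent.Helper25.KU.M2d

namespace Pool.Agent.Helper6.NS

open CategoryTheory CategoryTheory.Limits CategoryTheory.Pretriangulated Module
open CategoryTheory.Triangulated
open Pool.Agent.Helper6.KE
open Pool.Agent.Helper61.KU (Smp_toCo CoSmp_toSmp)
open Pool.Agent.Helper73.KU (tilt_up)
open Pool.Agent.Helper25.KU (tilt_down)

universe v u w

variable {C : Type u} [Category.{v} C] [Preadditive C] [HasZeroObject C] [HasShift C ℤ]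
  [∀ n : ℤ, (shiftFunctor C n).Additive] [Pretriangulated C]
  {K : Type w} [Field K] [Linear K C]

/-- vanishing is preserved by `W` on both sides. -/
lemma hv_WW (D : EnriquesType K C) {X Y : C} {n : ℤ} (h : HV X Y n) :
    HV (D.W.obj X) (D.W.obj Y) n := by
  rw [hv_W_iff D n (2 - n) (by ring)]
  exact hv_W D (2 - n) (by rw [sub_sub_cancel]; exact h)

lemma hv_W_left_iff (D : EnriquesType K C) {X Y : C} (n : ℤ) :
    HV (D.W.obj X) Y n ↔ HV X (D.W.obj Y) n := by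
  constructor
  · intro h
    exact (hv_WW D h).of_iso_left (D.sq.app X).symm
  · intro h
    exact (hv_WW D h).of_iso_right (D.sq.app Y).symm

section hv

variable (D : EnriquesType K C) (L : Fin 10 → C) (hL : IsExcOrth K L)
include hL

lemma hv_LL (k j : Fin 10) (n : ℤ) (h : k ≠ j ∨ n ≠ 0) : HV (L k) (L j) n := by
  by_cases hkj : k = j
  · subst hkj
    exact hL.exc k n (h.resolve_left (by simp))
  · exact hL.orth k j hkj n

lemma hv_LW (k j : Fin 10) (n : ℤ) (h : k ≠ j ∨ n ≠ 2) : HV (L k) (D.W.obj (L j)) n := by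
  rw [hv_W_iff D n (2 - n) (by ring)]
  refine hv_LL L hL j k (2 - n) ?_
  rcases h with h | h
  · exact Or.inl h.symm
  · right; omega

lemma hv_WL' (k j : Fin 10) (n : ℤ) (h : k ≠ j ∨ n ≠ 2) : HV (D.W.obj (L k)) (L j) n := by
  rw [hv_W_left_iff]
  exact hv_LW D L hL k j n h

lemma hv_WWL (k j : Fin 10) (n : ℤ) (h : k ≠ j ∨ n ≠ 0) :
    HV (D.W.obj (L k)) (D.W.obj (L j)) n := hv_WW D (hv_LL L hL k j n h)

end hv

variable [∀ n : ℤ, (shiftFunctor C n).Linear K]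

lemma finrank_WLL (D : EnriquesType K C) (L : Fin 10 → C) (hL : IsExcOrth K L) (k : Fin 10) :
    finrank K (D.W.obj (L k) ⟶ D.W.obj (L k)) = 1 := by
  have e : D.W.obj (D.W.obj (L k)) ≅ L k := D.sq.app (L k)
  rw [← hd_zero_eq, hd_W_left, hd_iso (Iso.refl (L k)) e 0, hd_zero_eq]
  exact hL.one k

/-- an object is `≥ n` iff it receives no nonzero map from objects `≤ n - 1`. -/
lemma isGE_iff_orth (t : TStructure C) (X : C) (n : ℤ) :
    t.IsGE X n ↔ ∀ (Y : C) (f : Y ⟶ X), t.IsLE Y (n - 1) → f = 0 :=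
  t.isGE_iff_orthogonal (n - 1) n (by ring) X

lemma isLE_iff_orth (t : TStructure C) (X : C) (n : ℤ) :
    t.IsLE X n ↔ ∀ (Y : C) (f : X ⟶ Y), t.IsGE Y (n + 1) → f = 0 :=
  t.isLE_iff_orthogonal n (n + 1) rfl X

/-- upward tilt of a good t-structure at `L 0`, `W (L 0)`. -/
theorem good_up [IsTriangulated C] (D : EnriquesType K C) (L : Fin 10 → C) (hL : IsExcOrth K L)
    (t : TStructure C) (p : Fin 10 → ℤ) (h : Good D L t p) :
    ∃ (t' : TStructure C) (p' : Fin 10 → ℤ), Good D L t' p' ∧ p' 0 = p 0 + 1 ∧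
      ∀ X n, t'.IsLE X n ↔ t.IsLE X n ∧ HV X (L 0) (p 0 - n) ∧
        HV X (D.W.obj (L 0)) (p 0 - n) := by
  obtain ⟨t', h1, h2, h3, h4⟩ := tilt_up D.homFinite t (L 0) (D.W.obj (L 0)) (p 0) (h.smp 0)
    (h.smpW 0) (hv_LW D L hL 0 0 0 (Or.inr (by norm_num)))
    (hv_WL' D L hL 0 0 0 (Or.inr (by norm_num))) (hv_LL L hL 0 0 1 (Or.inr (by norm_num)))
    (hv_LW D L hL 0 0 1 (Or.inr (by norm_num))) (hv_WL' D L hL 0 0 1 (Or.inr (by norm_num)))
    (hv_WWL D L hL 0 0 1 (Or.inr (by norm_num))) (hL.one 0) (finrank_WLL D L hL 0)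
  have hle1 : ∀ X n, t'.IsLE X n → t.IsLE X n := fun X n hX => ((h1 X n).1 hX).1
  have hle2 : ∀ X n, t.IsLE X n → t'.IsLE X (n + 1) := by
    intro X n hX
    refine (h1 X (n + 1)).2 ⟨t.isLE_of_le X n (n + 1) (by omega), ?_, ?_⟩
    · exact van_low t n (p 0) _ hX (h.smp 0).ge (by omega)
    · exact van_low t n (p 0) _ hX (h.smpW 0).ge (by omega)
  have Wle : ∀ X n, t'.IsLE X n → t'.IsLE (D.W.obj X) n := by
    intro X n hX
    obtain ⟨a, b, c⟩ := (h1 X n).1 hX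
    refine (h1 _ n).2 ⟨h.Wle X n a, ?_, ?_⟩
    · rw [hv_W_left_iff]; exact c
    · exact hv_WW D b
  refine ⟨t', Function.update p 0 (p 0 + 1), ⟨?_, Wle, ?_, ?_, ?_⟩, by simp, h1⟩
  · intro X
    obtain ⟨⟨a, ha⟩, ⟨b, hb⟩⟩ := h.bdd X
    refine ⟨⟨a, ?_⟩, ⟨b + 1, hle2 X b hb⟩⟩
    rw [isGE_iff_orth]
    intro Y f hY
    exact (isGE_iff_orth t X a).1 ha Y f (hle1 Y _ hY)
  · intro X n hX
    rw [isGE_iff_orth] at hX ⊢
    intro Y f hY
    apply hv_zero' (X := Y) (Y := D.W.obj X)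
    rw [← hv_W_left_iff]
    exact hv_zero (fun g => hX _ g (Wle Y _ hY))
  · intro k
    by_cases hk : k = 0
    · subst hk; simpa using h2
    · rw [Function.update_of_ne hk]
      exact h4 _ _ (h.smp k) (fun m => hv_LL L hL k 0 m (Or.inl hk))
        (fun m => hv_LW D L hL k 0 m (Or.inl hk))
  · intro k
    by_cases hk : k = 0
    · subst hk; simpa using h3
    · rw [Function.update_of_ne hk]
      exact h4 _ _ (h.smpW k) (fun m => hv_WL' D L hL k 0 m (Or.inl hk))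
        (fun m => hv_WWL D L hL k 0 m (Or.inl hk))

/-- downward tilt of a good t-structure at `L 0`, `W (L 0)`. -/
theorem good_down [IsTriangulated C] (D : EnriquesType K C) (L : Fin 10 → C)
    (hL : IsExcOrth K L) (t : TStructure C) (p : Fin 10 → ℤ) (h : Good D L t p) :
    ∃ (t' : TStructure C) (p' : Fin 10 → ℤ), Good D L t' p' ∧ p' 0 = p 0 - 1 ∧
      ∀ X n, t'.IsGE X n ↔ t.IsGE X n ∧ HV (L 0) X (n - p 0) ∧
        HV (D.W.obj (L 0)) X (n - p 0) := by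
  obtain ⟨t', h1, h2, h3, h4⟩ := tilt_down D.homFinite t (L 0) (D.W.obj (L 0)) (p 0) (h.smp 0)
    (h.smpW 0) (hv_LW D L hL 0 0 0 (Or.inr (by norm_num)))
    (hv_WL' D L hL 0 0 0 (Or.inr (by norm_num))) (hv_LL L hL 0 0 1 (Or.inr (by norm_num)))
    (hv_LW D L hL 0 0 1 (Or.inr (by norm_num))) (hv_WL' D L hL 0 0 1 (Or.inr (by norm_num)))
    (hv_WWL D L hL 0 0 1 (Or.inr (by norm_num))) (hL.one 0) (finrank_WLL D L hL 0)
  have hge1 : ∀ X n, t'.IsGE X n → t.IsGE X n := fun X n hX => ((h1 X n).1 hX).1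
  have hge2 : ∀ X n, t.IsGE X n → t'.IsGE X (n - 1) := by
    intro X n hX
    refine (h1 X (n - 1)).2 ⟨t.isGE_of_ge X (n - 1) n (by omega), ?_, ?_⟩
    · exact van_low t (p 0) n _ (h.smp 0).le hX (by omega)
    · exact van_low t (p 0) n _ (h.smpW 0).le hX (by omega)
  have Wge : ∀ X n, t'.IsGE X n → t'.IsGE (D.W.obj X) n := by
    intro X n hX
    obtain ⟨a, b, c⟩ := (h1 X n).1 hX
    refine (h1 _ n).2 ⟨h.Wge X n a, ?_, ?_⟩
    · rw [← hv_W_left_iff]; exact c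
    · exact hv_WW D b
  refine ⟨t', Function.update p 0 (p 0 - 1), ⟨?_, ?_, Wge, ?_, ?_⟩, by simp, h1⟩
  · intro X
    obtain ⟨⟨a, ha⟩, ⟨b, hb⟩⟩ := h.bdd X
    refine ⟨⟨a - 1, hge2 X a ha⟩, ⟨b, ?_⟩⟩
    rw [isLE_iff_orth]
    intro Y f hY
    exact (isLE_iff_orth t X b).1 hb Y f (hge1 Y _ hY)
  · intro X n hX
    rw [isLE_iff_orth] at hX ⊢
    intro Y f hY
    apply hv_zero' (X := D.W.obj X) (Y := Y)
    rw [hv_W_left_iff]
    exact hv_zero (fun g => hX _ g (Wge Y _ hY))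
  · intro k
    by_cases hk : k = 0
    · subst hk; simpa using CoSmp_toSmp h2
    · rw [Function.update_of_ne hk]
      exact CoSmp_toSmp (h4 _ _ (Smp_toCo (h.smp k))
        (fun m => hv_LL L hL 0 k m (Or.inl (Ne.symm hk)))
        (fun m => hv_WL' D L hL 0 k m (Or.inl (Ne.symm hk))))
  · intro k
    by_cases hk : k = 0
    · subst hk; simpa using CoSmp_toSmp h3
    · rw [Function.update_of_ne hk]
      exact CoSmp_toSmp (h4 _ _ (Smp_toCo (h.smpW k))
        (fun m => hv_LW D L hL 0 k m (Or.inl (Ne.symm hk)))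
        (fun m => hv_WWL D L hL 0 k m (Or.inl (Ne.symm hk))))

end Pool.Agent.Helper6.NS
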