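import Pool.Agent.Helper6.NS.Chain
import Pool.Agent.Helper6.NS.Extract
import Pool.Agent.Helper78.KU.Tower
import Pool.Agent.Helper18.KU.M10

namespace Pool.Agent.Helper6.NS

open CategoryTheory CategoryTheory.Limits CategoryTheory.Pretriangulated Module
open CategoryTheory.Triangulated
open Pool.Agent.Helper6.KE
open Pool.Agent.Helper78.KU (tower)
open Pool.Agent.Helper18.KU (finish)

universe v u w

variable {C : Type u} [Category.{v} C] [Preadditive C] [HasZeroObject C] [HasShift C ℤ]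
  [∀ n : ℤ, (shiftFunctor C n).Additive] [Pretriangulated C]
  {K : Type w} [Field K] [Linear K C]

lemma cls_isZero (D : EnriquesType K C) (hadd : ClsAdditive D) {X : C} (hX : IsZero X) :
    D.cls X = 0 := by
  rw [cls_iso D hadd (hX.iso (isZero_zero C)), cls_zero D hadd]

lemma cls_shift_zero (D : EnriquesType K C) (hadd : ClsAdditive D) (x : Fin 12 → ℝ) (X : C)
    (h : D.form x (D.cls X) = 0) (n : ℤ) : D.form x (D.cls (X⟦n⟧)) = 0 := by
  have step : ∀ n : ℤ, D.form x (D.cls (X⟦n⟧)) = 0 ↔ D.form x (D.cls (X⟦n + 1⟧)) = 0 := by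
    intro n
    rw [cls_iso D hadd ((shiftFunctorAdd' C n 1 (n + 1) rfl).app X)]
    change _ ↔ D.form x (D.cls ((X⟦n⟧)⟦(1 : ℤ)⟧)) = 0
    rw [cls_shift_one D hadd, map_neg, neg_eq_zero]
  induction n using Int.induction_on with
  | zero => rw [cls_iso D hadd ((shiftFunctorZero C ℤ).app X)]; exact h
  | succ n ih => exact (step n).1 ih
  | pred n ih => exact (step (-(n : ℤ) - 1)).2 (by rw [sub_add_cancel]; exact ih)

/-- `chi(F, M) = 0` if this holds for all pieces of `M`. -/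
lemma form_of_gr [IsTriangulated C] (D : EnriquesType K C) (hadd : ClsAdditive D)
    (t : TStructure C) (x : Fin 12 → ℝ) (M : C) (hM : t.bounded M)
    (h : ∀ n, D.form x (D.cls (gr t n M)) = 0) : D.form x (D.cls M) = 0 := by
  obtain ⟨⟨a, ha⟩, ⟨b, hb⟩⟩ := hM
  have key : ∀ m : ℕ, D.form x (D.cls ((t.truncLT (a + m)).obj M)) = 0 := by
    intro m
    induction m with
    | zero =>
      have hz : IsZero ((t.truncLT (a + (0 : ℕ))).obj M) := by
        rw [← t.isGE_iff_isZero_truncLT_obj]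
        simpa using ha
      rw [cls_isZero D hadd hz, map_zero]
    | succ m ih =>
      have h1 := hadd _ (t.triangleLTLTGELT_distinguished (a + m) (a + m + 1) (by omega) M)
      change D.cls ((t.truncLT (a + m + 1)).obj M) =
        D.cls ((t.truncLT (a + m)).obj M) + D.cls (gr t (a + m) M) at h1
      have e : a + ((m + 1 : ℕ) : ℤ) = a + m + 1 := by push_cast; ring
      rw [e, h1, map_add, ih, h, add_zero]
  have h2 := key (b + 1 - a).toNat
  have h3 : IsIso ((t.truncLTι (a + (b + 1 - a).toNat)).app M) := by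
    rw [← t.isLE_iff_isIso_truncLTι_app (a + (b + 1 - a).toNat - 1) _ (by ring)]
    exact t.isLE_of_le M b _ (by omega)
  have e : (t.truncLT (a + (b + 1 - a).toNat)).obj M ≅ M :=
    asIso ((t.truncLTι (a + (b + 1 - a).toNat)).app M)
  rw [← cls_iso D hadd e]
  exact h2

lemma form_S (D : EnriquesType K C) (hadd : ClsAdditive D) [∀ n : ℤ, (shiftFunctor C n).Linear K]
    (L : Fin 10 → C) (T : SphTri D (L 0)) {F : C} (hF : Ku L F) :
    D.form (D.cls F) (D.cls T.S) = 0 := by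
  have h1 := hadd _ T.mem
  change D.cls T.S = D.cls ((D.W.obj (L 0))⟦(1 : ℤ)⟧) + D.cls (L 0) at h1
  rw [h1, cls_shift_one D hadd, map_add, map_neg, D.form_cls F (D.W.obj (L 0)), chi_serre,
    D.form_symm _ (D.cls (L 0)), D.form_cls, chi_ku L hF 0]
  simp

section endo

variable (D : EnriquesType K C) (L : Fin 10 → C) (hL : IsExcOrth K L)

include hL in
lemma hv_SL (T : SphTri D (L 0)) (n : ℤ) (hn : n < 0) : HV T.S (L 0) n := by
  intro f
  have h0 : T.j ≫ f = 0 := by
    have : HV ((D.W.obj (L 0))⟦(1 : ℤ)⟧) (L 0) n :=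
      (hv_WL' D L hL 0 0 (n - 1) (Or.inr (by omega))).to_shift 1 n (by ring)
    exact this _
  obtain ⟨g, hg⟩ := Triangle.yoneda_exact₂ _ T.mem f h0
  have hg0 : g = 0 := hL.exc 0 n (by omega) g
  rw [hg, hg0]
  exact comp_zero

include hL in
lemma hv_SS (T : SphTri D (L 0)) (n : ℤ) (hn : n < 0) : HV T.S T.S n := by
  intro f
  obtain ⟨g, hg⟩ := coyo₂ _ T.mem n f (hv_SL D L hL T n hn _)
  have hg0 : g = 0 := hv_A D (S_mem_Ku D L hL T 0) n g
  rw [hg, hg0]
  exact zero_comp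

include hL in
lemma end_S (T : SphTri D (L 0)) (f : T.S ⟶ T.S) (hf : f ≠ 0) : IsIso f := by
  have h0 : T.j ≫ f ≫ T.p = 0 := by
    have h1 : HV ((D.W.obj (L 0))⟦(1 : ℤ)⟧) (L 0) 0 :=
      (hv_WL' D L hL 0 0 (-1) (Or.inr (by norm_num))).to_shift 1 0 (by norm_num)
    exact hv_zero' h1 _
  obtain ⟨g, hg⟩ := Triangle.yoneda_exact₂ _ T.mem (f ≫ T.p) h0
  have hid : (𝟙 (L 0) : L 0 ⟶ L 0) ≠ 0 := by
    intro h0
    have : ∀ f : L 0 ⟶ L 0, f = 0 := fun f => by rw [← Category.comp_id f, h0, comp_zero]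
    have hs : Subsingleton (L 0 ⟶ L 0) := ⟨fun a b => by rw [this a, this b]⟩
    have h1 := hL.one 0
    rw [finrank_zero_of_subsingleton] at h1
    exact absurd h1 (by norm_num)
  obtain ⟨c, hc⟩ := finrank_one_span (hL.one 0) hid g
  have h2 : (f - c • 𝟙 T.S) ≫ T.p = 0 := by
    have h3 : f ≫ T.p = T.p ≫ g := hg
    rw [Preadditive.sub_comp, h3, ← hc]
    simp
  have h4 : f - c • 𝟙 T.S = 0 := by
    obtain ⟨k, hk⟩ := Triangle.coyoneda_exact₂ _ T.mem (f - c • 𝟙 T.S) h2
    have hk0 : k = 0 := hv_zero' (hv_A D (S_mem_Ku D L hL T 0) 0) k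
    rw [hk, hk0]
    exact zero_comp
  have h5 : f = c • 𝟙 T.S := sub_eq_zero.1 h4
  have hc0 : c ≠ 0 := by
    rintro rfl
    exact hf (by rw [h5, zero_smul])
  rw [h5]
  exact ⟨c⁻¹ • 𝟙 T.S, by simp [smul_smul, hc0], by simp [smul_smul, hc0]⟩

end endo

variable [∀ n : ℤ, (shiftFunctor C n).Linear K]

/-- The main theorem in abstract form. -/
theorem heart_has_trivial [IsTriangulated C] (D : EnriquesType K C) (hadd : ClsAdditive D)
    (L : Fin 10 → C) (hL : IsExcOrth K L) (t : TStructure C) (p : Fin 10 → ℤ)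
    (h : Good D L t p) (t' : TStructure (Ku L).FullSubcategory) (hb : ∀ E, t'.bounded E) :
    ∃ E : (Ku L).FullSubcategory, t'.heart E ∧ ¬ IsZero E ∧
      ∀ F : (Ku L).FullSubcategory, chi K E.obj F.obj = 0 := by
  obtain ⟨T⟩ := exists_sphTri D (hL.one 0)
  let Sk : (Ku L).FullSubcategory := ⟨T.S, S_mem_Ku D L hL T⟩
  have hSz : ¬ IsZero Sk := by
    intro hz
    apply S_ne_zero D T (hL.one 0) (fun n hn => hL.exc 0 n hn)
    rw [IsZero.iff_id_eq_zero] at hz ⊢
    have := congrArg (Ku L).ι.map hz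
    rw [CategoryTheory.Functor.map_id, Functor.map_zero] at this
    exact this
  -- numerical triviality from the form
  have hchi : ∀ E : (Ku L).FullSubcategory,
      (∀ F : C, Ku L F → D.form (D.cls F) (D.cls E.obj) = 0) →
      ∀ F : (Ku L).FullSubcategory, chi K E.obj F.obj = 0 := by
    intro E hE F
    have h1 := hE F.obj F.property
    rw [D.form_symm, D.form_cls] at h1
    exact_mod_cast h1
  have hshift : ∀ (E : (Ku L).FullSubcategory) (n : ℤ),
      (∀ F : C, Ku L F → D.form (D.cls F) (D.cls E.obj) = 0) →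
      ∀ F : C, Ku L F → D.form (D.cls F) (D.cls (E⟦n⟧).obj) = 0 := by
    intro E n hE F hF
    have e : (E⟦n⟧).obj ≅ E.obj⟦n⟧ := ((Ku L).ι.commShiftIso n).app E
    rw [cls_iso D hadd e]
    exact cls_shift_zero D hadd _ _ (hE F hF) n
  have hS0 : ∀ F : C, Ku L F → D.form (D.cls F) (D.cls Sk.obj) = 0 :=
    fun F hF => form_S D hadd L T hF
  rcases extract t' hb Sk hSz (fun n hn => (hv_sub_iff (Ku L) _ _ n).2 (hv_SS D L hL T n hn))
    (fun f hf => by
      have h1 : (Ku L).ι.map f ≠ 0 := by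
        intro h0
        exact hf ((Ku L).ι.map_injective (by rw [h0, Functor.map_zero]))
      have h2 : IsIso ((Ku L).ι.map f) := end_S D L hL T _ h1
      exact isIso_of_reflects_iso f (Ku L).ι) with ⟨l, hl⟩ | ⟨M, B, N, κ, γ, δ, ν, hT, hν, F1, F3, F4, u, hu, huz⟩
  · refine ⟨Sk⟦l⟧, hl, fun hz => hSz (shift_isZero l hz), hchi _ (hshift _ _ hS0)⟩
  · -- transfer to `C`
    have hTC := (Ku L).ι.map_distinguished _ hT
    have hνC : (Ku L).ι.map ν ≫ (Ku L).ι.map κ ≠ 0 := by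
      rw [← Functor.map_comp]
      intro h0
      exact hν ((Ku L).ι.map_injective (by rw [h0, Functor.map_zero]))
    obtain ⟨t₁, p₁, h₁, hA, hC⟩ := chain D L hL t p h T.j T.p T.δ T.mem M.property N.property
      ((Ku L).ι.map κ) ((Ku L).ι.map ν) hνC
      (fun n hn => (hv_sub_iff (Ku L) N Sk n).1 (F3 n hn))
      (fun n hn => (hv_sub_iff (Ku L) Sk M n).1 (F4 n hn))
    have hinv := inv_rot_of_distTriang _ hTC
    have hB' : Ku L (B.obj⟦(-1 : ℤ)⟧) := (Ku L).le_shift (-1) _ B.property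
    have htow := tower D L t₁ p₁ h₁ T.j T.p T.δ T.mem _ ((Ku L).ι.map κ) _ hinv hA hC
    have hMB : HV M.obj (B.obj⟦(-1 : ℤ)⟧) 1 :=
      ((hv_sub_iff (Ku L) M B 0).1 (F1 0 le_rfl)).shift_right (-1) 1 (by norm_num)
    have hfin := finish D L hL t₁ p₁ h₁ M.property hB' hMB htow.1 htow.2
    have hM0 : ∀ F : C, Ku L F → D.form (D.cls F) (D.cls M.obj) = 0 := by
      intro F hF
      refine form_of_gr D hadd t₁ _ _ (h₁.bdd _) (fun n => ?_)
      rw [D.form_cls, hfin n F hF]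
      simp
    have hB0 : ∀ F : C, Ku L F → D.form (D.cls F) (D.cls B.obj) = 0 := by
      intro F hF
      have h1 := hadd _ hTC
      change D.cls T.S = D.cls M.obj + D.cls B.obj at h1
      have h2 := hS0 F hF
      change D.form (D.cls F) (D.cls T.S) = 0 at h2
      rw [h1, map_add, hM0 F hF, zero_add] at h2
      exact h2
    exact ⟨B⟦u⟧, hu, huz, hchi _ (hshift _ _ hB0)⟩

end Pool.Agent.Helper6.NS
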