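import Pool.Agent.Helper6.NS.Defs
import Pool.Agent.Helper6.KE.Stab

namespace Pool.Agent.Helper6.NS

open CategoryTheory CategoryTheory.Limits CategoryTheory.Pretriangulated Module
open CategoryTheory.Triangulated
open Pool.Agent.Helper6.KE

universe v u w

variable {C : Type u} [Category.{v} C] [Preadditive C] [HasZeroObject C] [HasShift C ℤ]
  [∀ n : ℤ, (shiftFunctor C n).Additive] [Pretriangulated C]

lemma hd_eq_zero {K : Type w} [Field K] [Linear K C] {X Y : C} {n : ℤ} (h : HV X Y n) :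
    hd K X Y n = 0 := by
  have hs : Subsingleton (X ⟶ Y⟦n⟧) := ⟨fun a b => by rw [h a, h b]⟩
  exact finrank_zero_of_subsingleton

lemma hv_of_hd {K : Type w} [Field K] [Linear K C] {X Y : C} {n : ℤ}
    [FiniteDimensional K (X ⟶ Y⟦n⟧)] (h : hd K X Y n = 0) : HV X Y n := by
  have hs : Subsingleton (X ⟶ Y⟦n⟧) := Module.finrank_zero_iff.1 h
  exact fun f => Subsingleton.elim _ _

lemma hd_iso {K : Type w} [Field K] [Linear K C] [∀ n : ℤ, (shiftFunctor C n).Linear K]
    {X X' Y Y' : C} (e : X ≅ X') (f : Y ≅ Y') (n : ℤ) : hd K X Y n = hd K X' Y' n := by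
  unfold hd
  exact (Linear.homCongr K e ((shiftFunctor C n).mapIso f)).finrank_eq

lemma hd_zero_eq {K : Type w} [Field K] [Linear K C] [∀ n : ℤ, (shiftFunctor C n).Linear K]
    (X Y : C) : hd K X Y 0 = finrank K (X ⟶ Y) := by
  unfold hd
  exact (Linear.homCongr K (Iso.refl X) ((shiftFunctorZero C ℤ).app Y)).finrank_eq

/-- shifting the first variable -/
lemma hd_shift_left {K : Type w} [Field K] [Linear K C] [∀ n : ℤ, (shiftFunctor C n).Linear K]
    (X Y : C) (a n m : ℤ) (h : n + a = m) : hd K (X⟦a⟧) Y m = hd K X Y n := by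
  unfold hd
  have e1 : (X ⟶ Y⟦n⟧) ≃ₗ[K] (X⟦a⟧ ⟶ Y⟦n⟧⟦a⟧) :=
    LinearEquiv.ofBijective ((shiftFunctor C a).mapLinearMap K)
      ⟨(shiftFunctor C a).map_injective, (shiftFunctor C a).map_surjective⟩
  have e2 : (X⟦a⟧ ⟶ Y⟦n⟧⟦a⟧) ≃ₗ[K] (X⟦a⟧ ⟶ Y⟦m⟧) :=
    Linear.homCongr K (Iso.refl _) ((shiftFunctorAdd' C n a m h).symm.app Y)
  exact (e1.trans e2).finrank_eq.symm

/-- shifting the second variable -/
lemma hd_shift_right {K : Type w} [Field K] [Linear K C] [∀ n : ℤ, (shiftFunctor C n).Linear K]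
    (X Y : C) (a n m : ℤ) (h : a + n = m) : hd K X (Y⟦a⟧) n = hd K X Y m := by
  unfold hd
  exact (Linear.homCongr K (Iso.refl X) ((shiftFunctorAdd' C a n m h).symm.app Y)).finrank_eq

variable {K : Type w} [Field K] [Linear K C]

/-- Serre duality vanishing for a `W`-invariant t-structure. -/
theorem van (D : EnriquesType K C) (t : TStructure C)
    (Wge : ∀ X n, t.IsGE X n → t.IsGE (D.W.obj X) n) {X Y : C} (a b n : ℤ)
    (hX : t.IsGE X a) (hY : t.IsLE Y b) (h : b + 3 ≤ a + n) : HV X Y n := by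
  rw [← hv_W_iff D (2 - n) n (by ring)]
  exact hv_heart t b a (2 - n) hY (Wge X a hX) (by omega)

/-- vanishing in low degrees -/
theorem van_low (t : TStructure C) {X Y : C} (a b n : ℤ)
    (hX : t.IsLE X a) (hY : t.IsGE Y b) (h : a + n < b) : HV X Y n :=
  hv_heart t a b n hX hY h

variable [∀ n : ℤ, (shiftFunctor C n).Linear K]

/-- Serre duality, dimensions. -/
theorem hd_serre (D : EnriquesType K C) (X Y : C) (n m : ℤ) (h : n + m = 2) :
    hd K X Y n = hd K Y (D.W.obj X) m :=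
  (finrank_serre D X Y m n (by rw [add_comm]; exact h)).symm

lemma hd_W_left (D : EnriquesType K C) (X Y : C) (n : ℤ) :
    hd K (D.W.obj X) Y n = hd K X (D.W.obj Y) n := by
  have e : D.W.obj (D.W.obj Y) ≅ Y := D.sq.app Y
  rw [hd_serre D X (D.W.obj Y) n (2 - n) (by ring),
    hd_serre D (D.W.obj Y) (D.W.obj X) (2 - n) n (by ring), hd_iso (Iso.refl (D.W.obj X)) e n]

/-- `dim Hom(X, L[n])` in terms of maps from `W L`. -/
lemma hd_to (D : EnriquesType K C) (X Y : C) (n m : ℤ) (h : n + m = 2) :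
    hd K X Y n = hd K (D.W.obj Y) X m := by
  rw [hd_serre D X Y n m h, hd_W_left]

/-- `dim Hom(X, W L[n])` in terms of maps from `L`. -/
lemma hd_toW (D : EnriquesType K C) (X Y : C) (n m : ℤ) (h : n + m = 2) :
    hd K X (D.W.obj Y) n = hd K Y X m := by
  rw [hd_serre D Y X m n (by omega)]

end Pool.Agent.Helper6.NS
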